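import Mathlib

/-!
# A Cayley graph of `ℤ` without nested vertex-isoperimetric sets

For the steps `1, 8, 9` on `ℤ` the optimal sets with `17` elements are intervals, and every chain of
optimal sets descends from there through intervals down to `13` elements, but an interval with `13`
elements contains no optimal set with `12` elements: the three by four block
`{0, 1, 2, 3} + {0, 8, 16}` is better.
-/

set_option autoImplicit false

namespace Pool.Agent.Results.MP_852f00_co.NoNested

/-- Vertex boundary in `ℤ` with the steps `1, 8, 9`. -/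
def bd (S : Finset ℤ) : ℕ := (((S ×ˢ ({1, 8, 9} : Finset ℤ)).image (fun p => p.1 + p.2)) \ S).card

theorem card_shift (S : Finset ℤ) (k : ℤ) :
    (S.filter (fun x => x + k ∉ S)).card = (S.filter (fun x => x - k ∉ S)).card := by
  have h1 : (S.filter (fun x => x + k ∈ S)).card = (S.filter (fun x => x - k ∈ S)).card := by
    refine Finset.card_bij (fun x _ => x + k) ?_ ?_ ?_
    · intro x hx
      simp only [Finset.mem_filter, add_sub_cancel_right] at hx ⊢
      exact ⟨hx.2, hx.1⟩
    · intro x _ y _ h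
      simpa using h
    · intro y hy
      simp only [Finset.mem_filter] at hy
      exact ⟨y - k, by simp [hy.1, hy.2], by ring⟩
  have h2 := Finset.card_filter_add_card_filter_not (s := S) (fun x => x + k ∈ S)
  have h3 := Finset.card_filter_add_card_filter_not (s := S) (fun x => x - k ∈ S)
  omega

theorem exists_stop (S : Finset ℤ) {m : ℤ} (hm : 0 < m) (x : ℤ) :
    ∃ k : ℕ, x - m * k - m ∉ S := by
  by_contra h
  push Not at h
  have : Set.Infinite (S : Set ℤ) := by
    refine Set.infinite_of_injective_forall_mem (f := fun k : ℕ => x - m * k - m) ?_ (fun k => h k)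
    intro a b hab
    have h2 : m * (a : ℤ) = m * b := by
      have : x - m * (a : ℤ) - m = x - m * b - m := hab
      linarith
    have := mul_left_cancel₀ hm.ne' h2
    exact_mod_cast this
  exact this S.finite_toSet

/-- The start of the chain with step `m` through `x`. -/
theorem exists_start (S : Finset ℤ) {m : ℤ} (hm : 0 < m) (x : ℤ) (hx : x ∈ S) :
    ∃ k : ℕ, (x - m * k) ∈ S.filter (fun x => x - m ∉ S) ∧ ∀ j : ℕ, j ≤ k → x - m * j ∈ S := by
  classical
  have h := exists_stop S hm x
  refine ⟨Nat.find h, ?_, ?_⟩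
  · rw [Finset.mem_filter]
    refine ⟨?_, Nat.find_spec h⟩
    rcases Nat.eq_zero_or_pos (Nat.find h) with h0 | h0
    · rw [h0]; simpa using hx
    · have := Nat.find_min h (m := Nat.find h - 1) (by omega)
      rw [not_not] at this
      have e : x - m * ((Nat.find h - 1 : ℕ) : ℤ) - m = x - m * (Nat.find h : ℕ) := by
        rw [Nat.cast_sub (by omega)]; push_cast; ring
      rwa [e] at this
  · intro j hj
    rcases Nat.eq_zero_or_pos j with h0 | h0
    · rw [h0]; simpa using hx
    · have := Nat.find_min h (m := j - 1) (by omega)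
      rw [not_not] at this
      have e : x - m * ((j - 1 : ℕ) : ℤ) - m = x - m * (j : ℕ) := by
        rw [Nat.cast_sub (by omega)]; push_cast; ring
      rwa [e] at this

/-- Eight consecutive elements give at least eight chains of step `8`. -/
theorem eight_le (S : Finset ℤ) (z : ℤ) (hz : ∀ i : ℤ, 0 ≤ i → i < 8 → z + i ∈ S) :
    8 ≤ (S.filter (fun x => x - 8 ∉ S)).card := by
  classical
  have h := fun i : Fin 8 => exists_start S (m := 8) (by norm_num) (z + (i : ℕ))
    (hz _ (by positivity) (by have := i.2; omega))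
  choose k hk _ using h
  have h8 : Fintype.card (Fin 8) ≤ (S.filter (fun x => x - 8 ∉ S)).card := by
    refine Finset.card_le_card_of_injOn (s := Finset.univ)
      (fun i : Fin 8 => z + (i : ℕ) - 8 * (k i : ℤ)) (fun i _ => hk i) ?_
    intro i _ j _ hij
    have h1 : z + ((i : ℕ) : ℤ) - 8 * (k i : ℤ) = z + ((j : ℕ) : ℤ) - 8 * (k j : ℤ) := hij
    have h2 := i.2
    have h3 := j.2
    apply Fin.ext
    omega
  simpa using h8

theorem interval_of (S : Finset ℤ) (hS : S.Nonempty) (h : (S.filter (fun x => x - 1 ∉ S)).card ≤ 1) :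
    ∃ a : ℤ, S = Finset.Ico a (a + S.card) := by
  have hstart : ∀ x ∈ S, ∀ y ∈ S, ∀ z, x ≤ z → z ≤ y → z ∈ S := by
    intro x hx y hy z hxz hzy
    obtain ⟨k, hk1, hk2⟩ := exists_start S (m := 1) one_pos x hx
    obtain ⟨l, hl1, hl2⟩ := exists_start S (m := 1) one_pos y hy
    have heq := Finset.card_le_one.1 h _ hk1 _ hl1
    have := hl2 (y - z).toNat (by omega)
    have e : y - 1 * ((y - z).toNat : ℤ) = z := by omega
    rwa [e] at this
  set a := S.min' hS
  set b := S.max' hS
  have hSI : S = Finset.Icc a b := by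
    ext z
    rw [Finset.mem_Icc]
    exact ⟨fun hz => ⟨S.min'_le z hz, S.le_max' z hz⟩,
      fun hz => hstart a (S.min'_mem hS) b (S.max'_mem hS) z hz.1 hz.2⟩
  have hab : a ≤ b := S.min'_le _ (S.max'_mem hS)
  refine ⟨a, ?_⟩
  have hc : S.card = (b + 1 - a).toNat := by
    conv_lhs => rw [hSI]
    rw [Int.card_Icc]
  rw [hc]
  conv_lhs => rw [hSI]
  ext z
  rw [Finset.mem_Icc, Finset.mem_Ico]
  omega

theorem card_union_shift (A : Finset ℤ) (k : ℤ) :
    (A ∪ A.image (fun x => x + k)).card = A.card + (A.filter (fun x => x - k ∉ A)).card := by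
  rw [← card_shift, ← Finset.union_sdiff_self_eq_union, Finset.card_union_of_disjoint Finset.disjoint_sdiff]
  congr 1
  refine (Finset.card_bij (fun x _ => x + k) ?_ ?_ ?_).symm
  · intro x hx
    rw [Finset.mem_filter] at hx
    rw [Finset.mem_sdiff, Finset.mem_image]
    exact ⟨⟨x, hx.1, rfl⟩, hx.2⟩
  · intro x _ y _ h
    simpa using h
  · intro y hy
    rw [Finset.mem_sdiff, Finset.mem_image] at hy
    obtain ⟨⟨x, hx, rfl⟩, hn⟩ := hy
    exact ⟨x, Finset.mem_filter.2 ⟨hx, hn⟩, rfl⟩

/-- `S` together with its right neighbours. -/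
def thick (S : Finset ℤ) : Finset ℤ := S ∪ S.image (fun x => x + 1)

theorem bd_eq (S : Finset ℤ) : bd S = (S.filter (fun x => x - 1 ∉ S)).card
    + ((thick S).filter (fun x => x - 8 ∉ thick S)).card := by
  have h1 : bd S + S.card = (thick S ∪ (thick S).image (fun x => x + 8)).card := by
    have h2 : thick S ∪ (thick S).image (fun x => x + 8) =
        (((S ×ˢ ({1, 8, 9} : Finset ℤ)).image (fun p => p.1 + p.2)) \ S) ∪ S := by
      rw [Finset.sdiff_union_self_eq_union]
      ext z
      simp only [thick, Finset.mem_union, Finset.mem_image, Finset.mem_product, Finset.mem_insert,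
        Finset.mem_singleton, Prod.exists]
      constructor
      · rintro ((h | ⟨x, hx, rfl⟩) | ⟨x, (h | ⟨y, hy, rfl⟩), rfl⟩)
        · exact Or.inr h
        · exact Or.inl ⟨x, 1, ⟨hx, by simp⟩, rfl⟩
        · exact Or.inl ⟨x, 8, ⟨h, by simp⟩, rfl⟩
        · exact Or.inl ⟨y, 9, ⟨hy, by simp⟩, by ring⟩
      · rintro (⟨x, u, ⟨hx, (rfl | rfl | rfl)⟩, rfl⟩ | h)
        · exact Or.inl (Or.inr ⟨x, hx, rfl⟩)
        · exact Or.inr ⟨x, Or.inl hx, rfl⟩
        · exact Or.inr ⟨x + 1, Or.inr ⟨x, hx, rfl⟩, by ring⟩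
        · exact Or.inl (Or.inl h)
    rw [h2, Finset.card_union_of_disjoint Finset.sdiff_disjoint]
    rfl
  rw [card_union_shift, thick, card_union_shift] at h1
  rw [thick]
  omega

theorem starts_thick (S : Finset ℤ) :
    ((thick S).filter (fun x => x - 1 ∉ thick S)).card ≤ (S.filter (fun x => x - 1 ∉ S)).card := by
  refine Finset.card_le_card fun x hx => ?_
  simp only [thick, Finset.mem_filter, Finset.mem_union, Finset.mem_image, not_or] at hx ⊢
  obtain ⟨h | ⟨y, hy, rfl⟩, h1, h2⟩ := hx
  · exact ⟨h, h1⟩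
  · exact absurd (by simpa using hy) h1

theorem interval_seventeen (S : Finset ℤ) (hc : S.card = 17) (hb : bd S ≤ 9) :
    ∃ a : ℤ, S = Finset.Ico a (a + 17) := by
  classical
  have hne : S.Nonempty := Finset.card_pos.1 (by omega)
  rw [bd_eq] at hb
  have hst := starts_thick S
  have hth : (thick S).card = S.card + (S.filter (fun x => x - 1 ∉ S)).card := card_union_shift S 1
  set r := (S.filter (fun x => x - 1 ∉ S)).card with hr
  set c := ((thick S).filter (fun x => x - 8 ∉ thick S)).card with hcc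
  have key : r ≤ 1 := by
    by_cases h8 : ∃ z : ℤ, ∀ i : ℤ, 0 ≤ i → i < 8 → z + i ∈ thick S
    · obtain ⟨z, hz⟩ := h8
      have := eight_le (thick S) z hz
      omega
    · exfalso
      have h1 := fun x : thick S => exists_start (thick S) (m := 1) one_pos x.1 x.2
      have h2 := fun x : thick S => exists_start (thick S) (m := 8) (by norm_num) x.1 x.2
      choose k hk hk' using h1
      choose l hl _ using h2
      have hcard : (thick S).card ≤ ((thick S).filter (fun x => x - 1 ∉ thick S)).card * c := by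
        rw [hcc, ← Finset.card_product, ← Finset.card_attach]
        refine Finset.card_le_card_of_injOn
          (fun x => (x.1 - 1 * (k x : ℤ), x.1 - 8 * (l x : ℤ)))
          (fun x _ => Finset.mem_coe.2 (Finset.mem_product.2 ⟨hk x, hl x⟩)) ?_
        intro x _ y _ hxy
        have e1 : x.1 - 1 * (k x : ℤ) = y.1 - 1 * (k y : ℤ) := congrArg Prod.fst hxy
        have e2 : x.1 - 8 * (l x : ℤ) = y.1 - 8 * (l y : ℤ) := congrArg Prod.snd hxy
        by_contra hne'
        have hne2 : x.1 ≠ y.1 := fun h => hne' (Subtype.ext h)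
        apply h8
        rcases lt_or_gt_of_ne hne2 with hlt | hlt
        · refine ⟨y.1 - 7, fun i hi0 hi7 => ?_⟩
          have := hk' y (7 - i).toNat (by omega)
          have e : y.1 - 1 * ((7 - i).toNat : ℤ) = y.1 - 7 + i := by omega
          rwa [e] at this
        · refine ⟨x.1 - 7, fun i hi0 hi7 => ?_⟩
          have := hk' x (7 - i).toNat (by omega)
          have e : x.1 - 1 * ((7 - i).toNat : ℤ) = x.1 - 7 + i := by omega
          rwa [e] at this
      have h3 : (thick S).card ≤ r * c := hcard.trans (Nat.mul_le_mul_right _ hst)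
      have hrc : r + c ≤ 9 := by omega
      have : r ≤ 9 := by omega
      have h4 : r * c ≤ r * (9 - r) := Nat.mul_le_mul_left _ (by omega)
      interval_cases r <;> omega
  obtain ⟨a, ha⟩ := interval_of S hne key
  rw [hc] at ha
  exact ⟨a, ha⟩

theorem bd_translate (S : Finset ℤ) (a : ℤ) : bd (S.image (fun x => a + x)) = bd S := by
  classical
  unfold bd
  have h : ((S.image (fun x => a + x) ×ˢ ({1, 8, 9} : Finset ℤ)).image (fun p => p.1 + p.2)) \
      (S.image (fun x => a + x)) =
      (((S ×ˢ ({1, 8, 9} : Finset ℤ)).image (fun p => p.1 + p.2)) \ S).image (fun x => a + x) := by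
    rw [Finset.image_sdiff _ _ (add_right_injective a)]
    congr 1
    ext z
    simp only [Finset.mem_image, Finset.mem_product, Prod.exists]
    constructor
    · rintro ⟨x, u, ⟨⟨y, hy, rfl⟩, hu⟩, rfl⟩
      exact ⟨y + u, ⟨y, u, ⟨hy, hu⟩, rfl⟩, by ring⟩
    · rintro ⟨w, ⟨y, u, ⟨hy, hu⟩, rfl⟩, rfl⟩
      exact ⟨a + y, u, ⟨⟨y, hy, rfl⟩, hu⟩, by ring⟩
  rw [h, Finset.card_image_of_injective _ (add_right_injective a)]

theorem image_Ico (a : ℤ) (n : ℕ) : (Finset.Ico (0 : ℤ) n).image (fun x => a + x) = Finset.Ico a (a + n) := by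
  ext z
  simp only [Finset.mem_image, Finset.mem_Ico]
  constructor
  · rintro ⟨x, hx, rfl⟩; omega
  · intro h; exact ⟨z - a, by omega, by ring⟩

theorem bd_interval_erase (a : ℤ) (n : ℕ) (i : ℤ) :
    bd ((Finset.Ico a (a + n)).erase (a + i)) = bd ((Finset.Ico (0 : ℤ) n).erase i) := by
  have h : (Finset.Ico a (a + n)).erase (a + i) = ((Finset.Ico (0 : ℤ) n).erase i).image (fun x => a + x) := by
    ext z
    simp only [Finset.mem_erase, Finset.mem_image, Finset.mem_Ico]
    constructor
    · rintro ⟨h1, h2⟩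
      exact ⟨z - a, ⟨fun h => h1 (by linarith), by omega⟩, by ring⟩
    · rintro ⟨x, ⟨h1, hx⟩, rfl⟩
      exact ⟨fun h => h1 (by linarith), by omega⟩
  rw [h, bd_translate]

theorem check (n : ℕ) (hn : n = 14 ∨ n = 15 ∨ n = 16 ∨ n = 17) :
    ∀ i ∈ Finset.Ico (0 : ℤ) n, bd ((Finset.Ico (0 : ℤ) n).erase i) ≤ 9 → i = 0 ∨ i = n - 1 := by
  rcases hn with rfl | rfl | rfl | rfl <;> decide +kernel

theorem check12 : ∀ i ∈ Finset.Ico (0 : ℤ) 13, 8 < bd ((Finset.Ico (0 : ℤ) 13).erase i) := by
  decide +kernel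

/-- One step down: an optimal `n`-element subset of an interval with `n + 1` elements is an interval. -/
theorem step {n : ℕ} (hn : n + 1 = 14 ∨ n + 1 = 15 ∨ n + 1 = 16 ∨ n + 1 = 17) {S T : Finset ℤ} {x : ℤ}
    (hx : x ∈ S) (hT : T = S.erase x) (hS : ∃ a : ℤ, S = Finset.Ico a (a + (n + 1 : ℕ))) (hb : bd T ≤ 9) :
    ∃ a : ℤ, T = Finset.Ico a (a + n) := by
  obtain ⟨a, rfl⟩ := hS
  subst hT
  obtain ⟨i, rfl⟩ : ∃ i, x = a + i := ⟨x - a, by ring⟩
  rw [bd_interval_erase] at hb
  rw [Finset.mem_Ico] at hx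
  rcases check (n + 1) hn i (by rw [Finset.mem_Ico]; omega) hb with h | h
  · refine ⟨a + 1, ?_⟩
    subst h
    ext z
    simp only [Finset.mem_erase, Finset.mem_Ico]
    push_cast
    omega
  · refine ⟨a, ?_⟩
    subst h
    ext z
    simp only [Finset.mem_erase, Finset.mem_Ico]
    push_cast
    omega

/-- There is no enumeration of `ℤ` with all initial segments optimal for the steps `1, 8, 9`. -/
theorem no_enum (e : ℕ ≃ ℤ)
    (h : ∀ n : ℕ, 1 ≤ n → ∀ S : Finset ℤ, S.card = n → bd ((Finset.range n).image e) ≤ bd S) : False := by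
  have hcard : ∀ n, ((Finset.range n).image e).card = n := fun n => by
    rw [Finset.card_image_of_injective _ e.injective, Finset.card_range]
  have herase : ∀ n, (Finset.range n).image e = ((Finset.range (n + 1)).image e).erase (e n) := by
    intro n
    ext z
    simp only [Finset.mem_image, Finset.mem_range, Finset.mem_erase]
    constructor
    · rintro ⟨i, hi, rfl⟩
      exact ⟨fun h => by have := e.injective h; omega, i, by omega, rfl⟩
    · rintro ⟨h1, i, hi, rfl⟩
      refine ⟨i, ?_, rfl⟩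
      rcases Nat.lt_or_ge i n with h2 | h2
      · exact h2
      · exact absurd (by rw [show i = n by omega]) h1
  have hmem : ∀ n, e n ∈ (Finset.range (n + 1)).image e := fun n =>
    Finset.mem_image.2 ⟨n, by simp, rfl⟩
  have hle : ∀ n : ℕ, n = 13 ∨ n = 14 ∨ n = 15 ∨ n = 16 ∨ n = 17 → bd ((Finset.range n).image e) ≤ 9 := by
    intro n hn
    refine (h n (by omega) (Finset.Ico 0 n) (by simp)).trans ?_
    rcases hn with rfl | rfl | rfl | rfl | rfl <;> decide +kernel
  have h17 := interval_seventeen _ (hcard 17) (hle 17 (by omega))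
  have h16 := step (n := 16) (by omega) (hmem 16) (herase 16) h17 (hle 16 (by omega))
  have h15 := step (n := 15) (by omega) (hmem 15) (herase 15) h16 (hle 15 (by omega))
  have h14 := step (n := 14) (by omega) (hmem 14) (herase 14) h15 (hle 14 (by omega))
  have h13 := step (n := 13) (by omega) (hmem 13) (herase 13) h14 (hle 13 (by omega))
  obtain ⟨a, ha⟩ := h13
  have h12 := h 12 (by omega) {0, 1, 2, 3, 8, 9, 10, 11, 16, 17, 18, 19} (by decide)
  have h14' : bd {0, 1, 2, 3, 8, 9, 10, 11, 16, 17, 18, 19} = 8 := by decide +kernel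
  rw [h14', herase 12, ha] at h12
  have hm := hmem 12
  rw [ha, Finset.mem_Ico] at hm
  obtain ⟨i, hi⟩ : ∃ i, e 12 = a + i := ⟨e 12 - a, by ring⟩
  rw [hi, bd_interval_erase] at h12
  have := check12 i (by rw [Finset.mem_Ico]; omega)
  push_cast at h12
  omega

/-- It is not true that every finite generating set `U` of `ℤ ^ d` without `0` has an enumeration of
`ℤ ^ d` all of whose initial segments have least vertex boundary among the sets of their size. -/
theorem result :
    ¬ (∀ d : ℕ, 1 ≤ d → ∀ U : Finset (Fin d → ℤ), (0 : Fin d → ℤ) ∉ U →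
      AddSubgroup.closure (U : Set (Fin d → ℤ)) = ⊤ →
      ∃ e : ℕ ≃ (Fin d → ℤ), ∀ n : ℕ, 1 ≤ n → ∀ S : Finset (Fin d → ℤ), S.card = n →
        (((((Finset.range n).image ⇑e) ×ˢ U).image (fun p => p.1 + p.2)) \
          ((Finset.range n).image ⇑e)).card ≤
        (((S ×ˢ U).image (fun p => p.1 + p.2)) \ S).card) := by
  intro H
  have hcl : AddSubgroup.closure
      ((({fun _ => 1, fun _ => 8, fun _ => 9} : Finset (Fin 1 → ℤ))) : Set (Fin 1 → ℤ)) = ⊤ := by
    rw [eq_top_iff]
    intro x _
    have h1 : (fun _ => 1 : Fin 1 → ℤ) ∈ AddSubgroup.closure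
        ((({fun _ => 1, fun _ => 8, fun _ => 9} : Finset (Fin 1 → ℤ))) : Set (Fin 1 → ℤ)) :=
      AddSubgroup.subset_closure (by simp)
    have h2 : x = x 0 • (fun _ => 1 : Fin 1 → ℤ) := by
      ext i
      simp [Subsingleton.elim i 0]
    rw [h2]
    exact AddSubgroup.zsmul_mem _ h1 _
  obtain ⟨e, he⟩ := H 1 le_rfl {fun _ => 1, fun _ => 8, fun _ => 9} (by decide) hcl
  let φ : (Fin 1 → ℤ) ≃ ℤ := Equiv.funUnique (Fin 1) ℤ
  have hφ : ∀ x y : Fin 1 → ℤ, φ (x + y) = φ x + φ y := fun x y => rfl
  have hU : ({fun _ => 1, fun _ => 8, fun _ => 9} : Finset (Fin 1 → ℤ)).image φ = {1, 8, 9} := by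
    decide
  have hbd : ∀ T : Finset (Fin 1 → ℤ),
      (((T ×ˢ ({fun _ => 1, fun _ => 8, fun _ => 9} : Finset (Fin 1 → ℤ))).image
        (fun p => p.1 + p.2)) \ T).card = bd (T.image φ) := by
    intro T
    unfold bd
    rw [← hU, ← Finset.card_image_of_injective _ φ.injective, Finset.image_sdiff _ _ φ.injective]
    congr 2
    ext z
    simp only [Finset.mem_image, Finset.mem_product, Prod.exists]
    constructor
    · rintro ⟨w, ⟨x, u, ⟨hx, hu⟩, rfl⟩, rfl⟩
      exact ⟨φ x, φ u, ⟨⟨x, hx, rfl⟩, ⟨u, hu, rfl⟩⟩, (hφ _ _).symm⟩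
    · rintro ⟨_, _, ⟨⟨x, hx, rfl⟩, ⟨u, hu, rfl⟩⟩, rfl⟩
      exact ⟨x + u, ⟨x, u, ⟨hx, hu⟩, rfl⟩, hφ _ _⟩
  refine no_enum (e.trans φ) fun n hn S hS => ?_
  have h1 := he n hn (S.image φ.symm) (by
    rw [Finset.card_image_of_injective _ φ.symm.injective, hS])
  rw [hbd, hbd, Finset.image_image, Finset.image_image] at h1
  simpa [Function.comp_def] using h1

end Pool.Agent.Results.MP_852f00_co.NoNested
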